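import Pool.Agent.T2h14.DA.Roots
import Pool.Agent.T2h14.DA.Zeta

/-!
The motivic monodromy conjecture for products of powers of the universal forms over products of
determinantal ideals, with minors and Pfaffians of all sizes.
-/

set_option autoImplicit false

namespace Pool.Agent.Results.MP_432c1b_ag.DeterminantalProducts

open MvPolynomial Pool.Agent.W428.MOT Pool.Agent.H628R4.TP Pool.Agent.TH192.DT
  Pool.Agent.TH192.MT Pool.Agent.R852.MX Pool.Agent.T2h14.DA

/-- **The motivic monodromy conjecture for the polynomials
`f = ∏ b, (∑_J y_{b,J} ∏_{β t = b} M_{J t}(x)) ^ a b`** (`mixForm S p β a`), `a b ≥ 1`.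

Here `x` is the generic `m × n` matrix, the generic symmetric `n × n` matrix, or the generic skew
symmetric `n × n` matrix (`S = gen m n`, `sym n`, `skew n`). For `t < T` and an index `J` the `M_J(x)` are
the minors of `x` of size `p t`, or the Pfaffians of size `2 (p t)`. The `t < T` are distributed to `B`
blocks by `β`, and in the block `b` the sum is over all the choices `J` of one minor of size `p t` for
each `t` with `β t = b`; so the factor of the block `b` is the universal linear combination, with the
variables `y_{b,J}` as coefficients, of the products of minors which generate the product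
`∏_{β t = b} I_{p t}` of determinantal ideals.

All sizes `p t ≤ min m n`, `p t ≤ n`, `2 (p t) ≤ n` are allowed, in particular the maximal minors, the
determinants of square matrices, the Pfaffian, and the Pfaffians of size `n - 1` for odd `n`; with one
exception (`Adm`): if the determinant of the symmetric `n × n` matrix is one of the minors, `n ≥ 2`, then
some `p t` must be equal to `n - 1`.

Let `𝒮` be the finite set of the pairs `(-ν_d, N_d)`, `d < rk`, with
`N_d = ∑ t, a (β t) max (p t - d, 0) > 0`, where `ν_d` is the codimension of the locus of the matrices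
of rank at most `d` (`2 d`), and of the pairs `(-1, a b)` (`mixPairs S p β a`). Then:

(1) `q₁ < 0 < q₂` for all the pairs `q` in `𝒮`, and for every polynomial `b` with
`b(s) f ^ s = P(s) f ^ (s + 1)`, `P(s)` a differential operator in the Weyl algebra, polynomial in `s`
(`IsBFunction`), in particular for the Bernstein-Sato polynomial of `f`, the number `q₁ / q₂ + i` is a
root of `b` for some integer `i`. By the theorem of Malgrange and Kashiwara, `exp(2 π i q₁ / q₂)` is
therefore a monodromy eigenvalue of `f` at some point of `{f = 0}`.

(2) For all fields `K` of characteristic `0` the motivic zeta function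
`∑_{d ≥ 0} [X_{d,1}] 𝕃 ^ (-n d) T ^ d` of `f` over `K` (`W = Set.univ`), `X_{d,1}` being the set of the
`d`-jets `φ` with `f(φ) = t ^ d mod t ^ (d + 1)` and `n` the number of the variables, is in the
subring of `K₀(Var_K)[𝕃⁻¹]⟦T⟧` generated over `K₀(Var_K)[𝕃⁻¹]` by `T` and the `1 / (1 - 𝕃 ^ q₁ T ^ q₂)`,
`q ∈ 𝒮`; and the same holds if only the jets with origin in a constructible set `W` are counted. -/
theorem result (S : MSpace) {T B : ℕ} (p : Fin T → ℕ) (β : Fin T → Fin B) (a : Fin B → ℕ)
    (hp : Adm S p) (ha : ∀ b, 0 < a b) :
    (∀ q ∈ mixPairs S p β a, q.1 < 0 ∧ 0 < q.2 ∧ ∀ b : Polynomial ℂ,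
      IsBFunction (map (Int.castRingHom ℂ) (mixForm S p β a)) b →
        ∃ i : ℤ, b.eval ((q.1 : ℂ) / q.2 + i) = 0) ∧
    ∀ (K : Type) [Field K] [CharZero K]
      (W : Set (Pt K ((Σ b, ((t : {t // β t = b}) → S.Idx (p t.1))) ⊕ S.Var))), Constr W →
      zetaM (map (Int.castRingHom K) (mixForm S p β a)) W {1} ∈
        ratU (Lu K) (mixPairs S p β a : Set (ℤ × ℤ)) := by
  refine ⟨fun q hq => ?_, fun K _ _ W hW => mix_memU K S p β a hp ha hW good_one⟩
  obtain ⟨h1, h2, h3, -⟩ := mix_rootsZ S p β a hp ha q hq
  exact ⟨h1, h2, h3⟩

end Pool.Agent.Results.MP_432c1b_ag.DeterminantalProducts
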