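import Pool.Agent.T2h14.NC.Main
import Pool.Agent.W375.MG.Out

/-!
# The motivic monodromy conjecture for stably nondegenerate polynomials and nondegenerate compositions

Let `k` be a field, `k ⊂ ℂ`. We prove the motivic monodromy conjecture for polynomials
`f ∈ k[x_1, …, x_n]` such that, for some `κ ≥ 0`, the polynomial `f(x) + y_1 z_1 + ⋯ + y_κ z_κ` becomes,
by an automorphism of the polynomial ring `k[x, y, z]`, a polynomial `G` which is nondegenerate with
respect to its Newton polytope, under a condition on the faces of the Newton polyhedron of `G` (see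
below). The main case: `f(x) = Φ(x, p_1(x) / c_1, …, p_κ(x) / c_κ)`, where `Φ(x, z)` and the `p_i(x)` are
polynomials such that `G = Φ(x, z) + ∑_i y_i (c_i z_i - p_i(x))` is nondegenerate. For `κ = 0` the
polynomial `f = G` itself is nondegenerate. For `κ > 0` the polynomials `f` are in general degenerate
with respect to their Newton polytopes, in all coordinates, not reduced, and their singularities are
not isolated: for example the products `x ^ u ∏_i p_i ^ (e_i)` for a nondegenerate system `p_1, …, p_κ`
(`Φ` a monomial), and sums of such products.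

The condition on the polyhedron. Let `P = {a ≥ 0 : ⟨a, v⟩ ≥ 1 for all exponents v of G}` be the dual
polyhedron; its vertices are the `a / N_a` for the facets of the Newton polyhedron with primitive
inner normal vectors `a` and `N_a = min ⟨a, ·⟩ > 0`; the candidate pole of `a` is `-|a| / N_a`. We assume
that every candidate pole `-σ` is an integer, or agrees modulo integers with the one of a facet which
contains a simplex which is not of type `B1`, or that the following holds (`DualV`): for each face
of `P` on which `∑ a_i = σ`, that is, for each face `τ` of the Newton polyhedron such that all the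
facets which contain `τ` have the candidate pole `-σ`, either (the vertices on) `τ` are linearly
independent (in the coordinates which are used by these facets), or all the facets which contain
`τ` are `B1` in a common direction and with the same apex. In
`Pool.Agent.Results.MP_432c1b_ag.NondegenerateSimplicialOrB1` (`κ = 0`) the condition was for the facets
through one vertex; now facets which are not simplices and `B1` in different directions may meet at
a vertex, as long as each common face of theirs is a simplex or the facets which contain it are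
`B1` in a common direction with the same apex.

Method. Let `-σ` be a candidate pole of `G` which satisfies `DualV`. The faces of the dual polyhedron on
which `∑ a_i = σ` satisfy the condition `HypS` of `Pool.Agent.TH216.MF.Crit` (`hypS_of_dual`), which is what
the combinatorial part of the proof for nondegenerate polynomials needs: the functional equation
of `b_G`, deformed to very general coefficients, gives a multiplicative identity for the series
`∑_u q ^ (-|u|) F (⟨u, m_1⟩ - t, …)`, and, if no `-σ - i` is a root, the factors `1 - 𝕃 ^ (-|a|) T ^ (N_a)` of the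
candidate poles cancel in `(1 - 𝕃⁻¹ T) Z_G(T)`. The zeta function of `f` is a combination of those of `G`
and `G + y z` (`𝕃 ^ 3 (1 - 𝕃⁻¹ T) Z_f(T) = (𝕃 ^ 2 + 𝕃) U_1(𝕃 T) - U_2(𝕃 ^ 2 T)` for one pair of variables,
`U_1`, `U_2` the products with `1 - 𝕃⁻¹ T` of the zeta functions of `f + y z` and `f + y z + y' z'`), so
one needs that the condition `DualV` for `G` and `σ` implies the one for `G + y z` and `σ + 1`
(`dual_exyz`), and that the rays with positive order of the normal fan of `G + y z` come from those
of `G` (`ray_exyz`). Finally a functional equation of `f` with `b(s) = (s + 1) c(s)` gives one of `G` with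
`(s + 1) c(s + κ)`.
-/

set_option autoImplicit false

namespace Pool.Agent.Results.MP_432c1b_ag.NondegenerateCompositions

open MvPolynomial Pool.Agent.W428.MOT Pool.Agent.W375.MG
open Pool.Agent.TH216.HD (HullV Nondegenerate IsRay ordA)
open Pool.Agent.T2h14.NC (HypD)
open Pool.Agent.W749.JI (fam)
open Pool.Agent.Y229.RE (ex)
open Pool.Agent.Y229.MS (stabK)

/-- The motivic monodromy conjecture for `f`, with the finite set `S` of pairs `(a, b)` of integers:
`a < 0 < b`, and for every polynomial `b` with `b(s) f ^ s = P(s) f ^ (s + 1)`, `P(s)` a differential operator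
in the Weyl algebra, polynomial in `s` (`IsBFunction`), in particular for the Bernstein-Sato polynomial
of `f`, the number `a / b - i` is a root for some integer `i` (so that `exp(2 π i a / b)` is a monodromy
eigenvalue of `f` at some point of `{f = 0}`, by the theorem of Malgrange and Kashiwara); and the motivic
zeta function `∑_{d ≥ 0} [X_{d,1}] 𝕃 ^ (- n d) T ^ d` of `f` over `k` (`K = k`, `W = Set.univ`) is in the ring
generated over `K₀(Var_k)[𝕃⁻¹]` by `T` and the `1 / (1 - 𝕃 ^ a T ^ b)`, `(a, b) ∈ S`; the same holds over
all fields `K ⊃ k`, and if only the jets with origin in a constructible set `W` are counted. -/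
def MotivicMC {k : Type} [Field k] [Algebra k ℂ] {n : ℕ} (f : MvPolynomial (Fin n) k)
    (S : Finset (ℤ × ℤ)) : Prop :=
  (∀ p ∈ S, p.1 < 0 ∧ 0 < p.2 ∧ ∀ b : Polynomial ℂ,
    Pool.Agent.H628R4.TP.IsBFunction (map (algebraMap k ℂ) f) b →
      ∃ i : ℤ, b.eval ((p.1 : ℂ) / p.2 - i) = 0) ∧
  ∀ (K : Type) [Field K] [Algebra k K] (W : Set (Pt K (Fin n))), Constr W →
    zetaW (map (algebraMap k K) f) W ∈ ratRing K S

/-- **The motivic monodromy conjecture for nondegenerate polynomials, stably nondegenerate polynomials
and nondegenerate compositions, with a condition on the faces of the dual polyhedron.**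

Let `v j`, `j = 1, …, r`, be the distinct, nonzero exponents of the polynomial `G = ∑_j c_j X ^ (v j)`,
`c_j ≠ 0`. `Nondegenerate v c` says that for every face of the convex hull of the `v j` the face
polynomial and its derivatives have no common zero in the complex torus. `V` is a set of exponents
which contains the vertices of this convex hull (`HullV v V j` for all `j`). `HypD v V` is the condition
on the polyhedron described above: every ray `a` of the normal fan of the Newton polyhedron with
`N_a = ordA v a > 0` satisfies: `N_a` divides `|a|`, or `|a| / N_a - |a'| / N_{a'} ∈ ℤ` for some `a'` with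
`NonB1 v False a'`, or `DualV v V (|a| / N_a)`.

(1) If `f = G` is such a polynomial, then the motivic monodromy conjecture holds for `f`.

(2) Let `f` be a non-constant polynomial and `φ` an automorphism of the `k`-algebra `k[x, y, z]` such
that `φ(f(x) + ∑_{i ≤ κ} y_i z_i) = G` is such a polynomial and `κ N_a < |a|` for all the rays `a` with
`N_a > 0`. Then the motivic monodromy conjecture holds for `f`.

(3) Let exponents `m_j` of monomials in `x_1, …, x_n, z_1, …, z_κ` be given, `j = 1, …, r`, in groups
`π j ∈ {0, …, κ}`, and `a_j ≠ 0`; let `Φ = fam π m a 0 = ∑_{π j = 0} a_j X ^ (m_j)` and let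
`fam π m a i.succ = ∑_{π j = i} a_j X ^ (m_j)` be `c_i z_i - p_i(x)`, `c_i ≠ 0`, for `i = 1, …, κ`. If
`G = Φ + ∑_i y_i (c_i z_i - p_i(x))`, with the exponents `ex π m`, is such a polynomial, then the motivic
monodromy conjecture holds for `f(x) = Φ(x, p_1(x) / c_1, …, p_κ(x) / c_κ)`, if `f` is not constant. -/
theorem result (k : Type) [Field k] [Algebra k ℂ] {n κ r : ℕ} (hr : 0 < r) :
    (∀ v : Fin r → Fin n → ℕ, Function.Injective v → (∀ j, v j ≠ 0) →
      ∀ c : Fin r → k, (∀ j, c j ≠ 0) → Nondegenerate v (fun j => algebraMap k ℂ (c j)) →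
      ∀ V : Finset (Fin r), (∀ j, HullV v V j) → HypD v V →
      ∃ S : Finset (ℤ × ℤ), MotivicMC (∑ j, C (c j) * ∏ i, X i ^ v j i) S) ∧
    (∀ f : MvPolynomial (Fin n) k, f.totalDegree ≠ 0 →
      ∀ v : Fin r → Fin (n + (κ + κ)) → ℕ, Function.Injective v → (∀ j, v j ≠ 0) →
      ∀ c : Fin r → k, (∀ j, c j ≠ 0) → Nondegenerate v (fun j => algebraMap k ℂ (c j)) →
      ∀ V : Finset (Fin r), (∀ j, HullV v V j) → HypD v V →
      (∀ a, IsRay v a → 0 < ordA v a → κ * ordA v a < ∑ i, a i) →
      ∀ φ : MvPolynomial (Fin (n + (κ + κ))) k ≃ₐ[k] MvPolynomial (Fin (n + (κ + κ))) k,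
      φ (stabK f κ) = ∑ j, C (c j) * ∏ i, X i ^ v j i →
      ∃ S : Finset (ℤ × ℤ), MotivicMC f S) ∧
    (∀ (π : Fin r → Fin (κ + 1)) (m : Fin r → Fin (n + κ) → ℕ),
      Function.Injective (ex π m) → (∀ j, ex π m j ≠ 0) →
      ∀ a : Fin r → k, (∀ j, a j ≠ 0) →
      Nondegenerate (ex π m) (fun j => algebraMap k ℂ (a j)) →
      ∀ V : Finset (Fin r), (∀ j, HullV (ex π m) V j) → HypD (ex π m) V →
      ∀ c : Fin κ → k, (∀ i, c i ≠ 0) → ∀ p : Fin κ → MvPolynomial (Fin n) k,
      (∀ i : Fin κ, fam π m a i.succ = C (c i) * X (Fin.natAdd n i) -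
        rename (Fin.castAdd κ) (p i)) →
      ∀ f : MvPolynomial (Fin n) k,
      f = aeval (Fin.append X fun i => C (c i)⁻¹ * p i) (fam π m a 0) → f.totalDegree ≠ 0 →
      ∃ S : Finset (ℤ × ℤ), MotivicMC f S) := by
  have key : ∀ {n' : ℕ} (f : MvPolynomial (Fin n') k) (S : Finset (ℤ × ℤ)),
      ((∀ p ∈ S, p.1 < 0 ∧ 0 < p.2 ∧
        ∀ b : Polynomial ℂ, Pool.Agent.H628R4.TP.IsBFunction (map (algebraMap k ℂ) f) b →
          ∃ i : ℤ, b.eval ((p.1 : ℂ) / p.2 - i) = 0) ∧
      ∀ (K : Type) [Field K] [Algebra k K],
        (∀ x : Fin n' → K, zeta (map (algebraMap k K) f) x ∈ ratRing K S) ∧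
        ∀ (W : Set (Pt K (Fin n'))) (E : Set (AlgebraicClosure K)), Constr W → Good E →
        zetaG (map (algebraMap k K) f) W E ∈ ratRing K S) → MotivicMC f S := by
    intro n' f S h
    refine ⟨h.1, fun K _ _ W hW => ?_⟩
    rw [zetaW_eq]
    exact (h.2 K).2 W {1} hW good_one
  refine ⟨?_, ?_, ?_⟩
  · intro v hv hv0 c hc hnd V hV hL
    set f : MvPolynomial (Fin n) k := ∑ j, C (c j) * ∏ i, X i ^ v j i with hf
    have hdeg : f.totalDegree ≠ 0 := by
      have h1 := Pool.Agent.T2h14.NC.spa_deg' hr v hv hv0 (fun j => algebraMap k ℂ (c j))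
        fun j => (map_ne_zero _).2 (hc j)
      have h2 : Pool.Agent.W425.ND.spa v (fun j => algebraMap k ℂ (c j)) =
          map (algebraMap k ℂ) f := by
        rw [hf, map_sum]
        unfold Pool.Agent.W425.ND.spa
        refine Finset.sum_congr rfl fun j _ => ?_
        rw [map_mul, map_C, map_prod]
        simp only [map_pow, map_X]
      rw [h2, totalDegree, support_map_of_injective _ (algebraMap k ℂ).injective] at h1
      exact h1
    obtain ⟨S, hS⟩ := Pool.Agent.T2h14.NC.main (κ := 0) hr f hdeg v hv hv0 c hc hnd V hV hL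
      (fun a _ hg => by
        rw [Nat.zero_mul]
        by_contra h0
        have h1 : ∀ i, a i = 0 := fun i =>
          Finset.sum_eq_zero_iff.1 (Nat.le_zero.1 (not_lt.1 h0)) i (Finset.mem_univ i)
        have h2 := Pool.Agent.W803.SM.gord_le v a ⟨0, hr⟩
        have h3 : ∑ i, a i * v ⟨0, hr⟩ i = 0 := Finset.sum_eq_zero fun i _ => by
          rw [show a i = 0 from h1 i, Nat.zero_mul]
        exact absurd h3 (lt_of_lt_of_le hg h2).ne')
      AlgEquiv.refl (by
        change rename (Fin.castAdd (0 + 0)) f + ∑ i : Fin 0, _ = f
        rw [Finset.univ_eq_empty, Finset.sum_empty]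
        have h3 : rename (Fin.castAdd (0 + 0) : Fin n → Fin (n + (0 + 0))) f = f :=
          rename_id_apply f
        refine (congrArg (· + (0 : MvPolynomial (Fin n) k)) h3).trans ?_
        exact add_zero f)
    exact ⟨S, key f S hS⟩
  · intro f hf v hv hv0 c hc hnd V hV hL hpos φ hφ
    obtain ⟨S, hS⟩ := Pool.Agent.T2h14.NC.main hr f hf v hv hv0 c hc hnd V hV hL hpos φ hφ
    exact ⟨S, key f S hS⟩
  · intro π m hv hv0 a ha hnd V hV hL c hc p hl f hff hf
    obtain ⟨S, hS⟩ := Pool.Agent.T2h14.NC.main_comp hr π m hv hv0 a ha hnd V hV hL c hc p hl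
      f hff hf
    exact ⟨S, key f S hS⟩

end Pool.Agent.Results.MP_432c1b_ag.NondegenerateCompositions
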